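import Mathlib
import Pool.Agent.Work.MP_5df1f6_co.Defs
import Pool.Agent.Work.MP_5df1f6_co.Main

set_option autoImplicit false

namespace Pool.Agent.Results.MP_5df1f6_co.MissingCounts

open Pool.Agent.Work.MP_5df1f6_co

/-- For every `n ≥ 3` and `t ≤ t_max`, the missing set `[a_t, b_t] \ S_t`. -/
theorem result (n : ℕ) (hn : 3 ≤ n) (t : ℕ) (ht : t ≤ tmax n) :
    {x : ℤ | a n t ≤ x ∧ x ≤ b n t ∧ x ∉ S n t} =
      {x : ℤ | a n t ≤ x ∧ x ≤ b n t ∧ (Odd (x - a n t) ∨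
        ∃ j : ℕ, a n t + (j : ℤ) * (2 * t - j - 1) < x ∧
          x < a n t + 2 * ((j : ℤ) + 1) * (t - j - 2))} := by
  rw [main n hn t ht]
  ext x
  constructor
  · rintro ⟨h1, h2, h3 | ⟨j, hj, h3⟩⟩
    · exact ⟨h1, h2, Or.inl h3⟩
    · obtain ⟨k, rfl⟩ := Int.eq_ofNat_of_zero_le hj
      exact ⟨h1, h2, Or.inr ⟨k, h3⟩⟩
  · rintro ⟨h1, h2, h3 | ⟨j, h3⟩⟩
    · exact ⟨h1, h2, Or.inl h3⟩
    · exact ⟨h1, h2, Or.inr ⟨j, Int.natCast_nonneg j, h3⟩⟩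

end Pool.Agent.Results.MP_5df1f6_co.MissingCounts
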